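import Mathlib

set_option autoImplicit false

namespace Pool.Agent.Results.MP_de689f_co.Q1No

/-- `u` lies in the same component as `v` of the subgraph induced by the colours `a`, `b`. -/
def SameChain {V C : Type} (G : SimpleGraph V) (f : V → C) (a b : C) (v u : V) : Prop :=
  Relation.ReflTransGen
    (fun x y => G.Adj x y ∧ (f x = a ∨ f x = b) ∧ (f y = a ∨ f y = b)) v u

/-- `g` arises from `f` by one Kempe change. -/
def KempeStep {V : Type} {m : ℕ} (G : SimpleGraph V) (f g : V → Fin m) : Prop :=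
  ∃ (a b : Fin m) (v : V), a ≠ b ∧ (f v = a ∨ f v = b) ∧
    ∀ u, (SameChain G f a b v u → g u = Equiv.swap a b (f u)) ∧
      (¬ SameChain G f a b v u → g u = f u)

/-- Kempe equivalence. -/
def KempeEquiv {V : Type} {m : ℕ} (G : SimpleGraph V) (f g : V → Fin m) : Prop :=
  Relation.ReflTransGen (KempeStep G) f g

section
variable (l p : ℕ)

def w (i : Fin l) : ZMod p := ((i.val + 1 : ℕ) : ZMod p)

def arc (u v : ZMod 3 × Fin l × ZMod p) : Prop :=
  v.1 = u.1 + 1 ∧ u.2.1 ≠ v.2.1 ∧ v.2.2 = u.2.2 + w l p u.2.1 * w l p v.2.1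

def gr : SimpleGraph (ZMod 3 × Fin l × ZMod p) where
  Adj u v := arc l p u v ∨ arc l p v u
  symm := ⟨fun _ _ h => h.symm⟩
  loopless := ⟨fun _ h => by rcases h with h | h <;> exact h.2.1 rfl⟩

variable {l p}

lemma w_inj (hp : 2 * l < p) {i j : Fin l} (h : w l p i = w l p j) : i = j := by
  unfold w at h
  rw [ZMod.natCast_eq_natCast_iff'] at h
  rw [Nat.mod_eq_of_lt (by omega), Nat.mod_eq_of_lt (by omega)] at h
  ext; omega

lemma w_add (hp : 2 * l < p) (i j : Fin l) : w l p i + w l p j ≠ 0 := by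
  unfold w
  rw [← Nat.cast_add, Ne, ZMod.natCast_eq_zero_iff]
  intro h
  have := Nat.le_of_dvd (by omega) h
  omega

lemma w_ne (hp : 2 * l < p) (i : Fin l) : w l p i ≠ 0 := by
  intro h
  exact w_add hp i i (by rw [h, add_zero])

lemma noC4 [Fact p.Prime] (hp : 2 * l < p) {a b c d : ZMod 3 × Fin l × ZMod p}
    (h1 : (gr l p).Adj a b) (h2 : (gr l p).Adj b c) (h3 : (gr l p).Adj c d)
    (h4 : (gr l p).Adj d a) : a = c ∨ b = d := by
  obtain ⟨x1, i1, z1⟩ := a
  obtain ⟨x2, i2, z2⟩ := b
  obtain ⟨x3, i3, z3⟩ := c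
  obtain ⟨x4, i4, z4⟩ := d
  have h10 : (1 : ZMod 3) ≠ 0 := by decide
  have h30 : (3 : ZMod 3) = 0 := by decide
  simp only [gr, arc] at h1 h2 h3 h4
  simp only [Prod.mk.injEq]
  have inj := fun {i j : Fin l} => @w_inj l p hp i j
  rcases h1 with ⟨e1, -, f1⟩ | ⟨e1, -, f1⟩ <;> rcases h2 with ⟨e2, -, f2⟩ | ⟨e2, -, f2⟩ <;>
    rcases h3 with ⟨e3, -, f3⟩ | ⟨e3, -, f3⟩ <;> rcases h4 with ⟨e4, -, f4⟩ | ⟨e4, -, f4⟩
  · exact absurd (by linear_combination -e1 - e2 - e3 - e4 - h30) h10
  · exact absurd (by linear_combination e1 + e2 + e3 - e4 + h30) h10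
  · exact absurd (by linear_combination e1 + e2 - e3 + e4 + h30) h10
  · have : (w l p i2 - w l p i4) * (w l p i1 + w l p i3) = 0 := by
      linear_combination -f1 - f2 + f3 + f4
    have := inj (sub_eq_zero.1 ((mul_eq_zero.1 this).resolve_right (w_add hp _ _)))
    subst this
    exact Or.inr ⟨by rw [e1, e4], rfl, by rw [f1, f4]⟩
  · exact absurd (by linear_combination e1 - e2 + e3 + e4 + h30) h10
  · have : (w l p i1 - w l p i3) * (w l p i2 - w l p i4) = 0 := by
      linear_combination -f1 + f2 - f3 + f4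
    rcases mul_eq_zero.1 this with h | h
    · have := inj (sub_eq_zero.1 h)
      subst this
      exact Or.inl ⟨by linear_combination e2 - e1, rfl, by linear_combination f2 - f1⟩
    · have := inj (sub_eq_zero.1 h)
      subst this
      exact Or.inr ⟨by rw [e1, e4], rfl, by rw [f1, f4]⟩
  · have : (w l p i1 - w l p i3) * (w l p i2 + w l p i4) = 0 := by
      linear_combination -f1 + f2 + f3 - f4
    have := inj (sub_eq_zero.1 ((mul_eq_zero.1 this).resolve_right (w_add hp _ _)))
    subst this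
    exact Or.inl ⟨by linear_combination e2 - e1, rfl, by linear_combination f2 - f1⟩
  · exact absurd (by linear_combination -e1 + e2 + e3 + e4 + h30) h10
  · exact absurd (by linear_combination -e1 + e2 + e3 + e4 + h30) h10
  · have : (w l p i1 - w l p i3) * (w l p i2 + w l p i4) = 0 := by
      linear_combination -f1 + f2 + f3 - f4
    have := inj (sub_eq_zero.1 ((mul_eq_zero.1 this).resolve_right (w_add hp _ _)))
    subst this
    exact Or.inl ⟨by rw [e1, e2], rfl, by rw [f1, f2]⟩
  · have : (w l p i1 - w l p i3) * (w l p i2 - w l p i4) = 0 := by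
      linear_combination -f1 + f2 - f3 + f4
    rcases mul_eq_zero.1 this with h | h
    · have := inj (sub_eq_zero.1 h)
      subst this
      exact Or.inl ⟨by rw [e1, e2], rfl, by rw [f1, f2]⟩
    · have := inj (sub_eq_zero.1 h)
      subst this
      exact Or.inr ⟨by linear_combination e4 - e1, rfl, by linear_combination f4 - f1⟩
  · exact absurd (by linear_combination e1 - e2 + e3 + e4 + h30) h10
  · have : (w l p i2 - w l p i4) * (w l p i1 + w l p i3) = 0 := by
      linear_combination -f1 - f2 + f3 + f4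
    have := inj (sub_eq_zero.1 ((mul_eq_zero.1 this).resolve_right (w_add hp _ _)))
    subst this
    exact Or.inr ⟨by linear_combination e4 - e1, rfl, by linear_combination f4 - f1⟩
  · exact absurd (by linear_combination e1 + e2 - e3 + e4 + h30) h10
  · exact absurd (by linear_combination e1 + e2 + e3 - e4 + h30) h10
  · exact absurd (by linear_combination -e1 - e2 - e3 - e4 - h30) h10

/-- two-coloured subgraphs of the colouring by the middle coordinate are connected. -/
lemma conn [Fact p.Prime] (hp : 2 * l < p) (hp3 : 3 < p) {i j : Fin l} (hij : i ≠ j)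
    (R : (ZMod 3 × Fin l × ZMod p) → (ZMod 3 × Fin l × ZMod p) → Prop)
    (hR : ∀ x z, R (x, i, z) (x + 1, j, z + w l p i * w l p j))
    (hR' : ∀ x z, R (x, j, z) (x + 1, i, z + w l p i * w l p j))
    (x : ZMod 3) (z : ZMod p) (x' : ZMod 3) (z' : ZMod p) :
    Relation.ReflTransGen R (x, i, z) (x', i, z') ∧ Relation.ReflTransGen R (x, i, z) (x', j, z') := by
  have two : ∀ n : ℕ, Relation.ReflTransGen R (x, i, z)
      (x + 2 * n, i, z + 2 * n * (w l p i * w l p j)) := by
    intro n
    induction n with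
    | zero => simpa using Relation.ReflTransGen.refl
    | succ n ih =>
      have := (ih.tail (hR _ _)).tail (hR' _ _)
      have e1 : x + 2 * (n : ZMod 3) + 1 + 1 = x + 2 * ((n + 1 : ℕ) : ZMod 3) := by push_cast; ring
      have e2 : z + 2 * (n : ZMod p) * (w l p i * w l p j) + w l p i * w l p j + w l p i * w l p j =
          z + 2 * ((n + 1 : ℕ) : ZMod p) * (w l p i * w l p j) := by push_cast; ring
      rwa [e1, e2] at this
  have hne : (2 : ZMod p) * (w l p i * w l p j) ≠ 0 := by
    refine mul_ne_zero ?_ (mul_ne_zero (w_ne hp i) (w_ne hp j))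
    intro h
    have : ((2 : ℕ) : ZMod p) = 0 := by exact_mod_cast h
    rw [ZMod.natCast_eq_zero_iff] at this
    have := Nat.le_of_dvd (by omega) this
    omega
  have hco : Nat.Coprime 3 p :=
    (Nat.coprime_primes Nat.prime_three Fact.out).2 (by omega)
  have all : ∀ x' z', Relation.ReflTransGen R (x, i, z) (x', i, z') := by
    intro x' z'
    obtain ⟨n, h1, h2⟩ := Nat.chineseRemainder hco (2 * (x' - x)).val
      ((z' - z) / (2 * (w l p i * w l p j))).val
    have a1 : (n : ZMod 3) = 2 * (x' - x) := by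
      rw [(ZMod.natCast_eq_natCast_iff _ _ _).2 h1, ZMod.natCast_zmod_val]
    have a2 : (n : ZMod p) = (z' - z) / (2 * (w l p i * w l p j)) := by
      rw [(ZMod.natCast_eq_natCast_iff _ _ _).2 h2, ZMod.natCast_zmod_val]
    have := two n
    have h30 : (3 : ZMod 3) = 0 := by decide
    have e1 : x + 2 * (n : ZMod 3) = x' := by rw [a1]; linear_combination (x' - x) * h30
    have e2 : z + 2 * (n : ZMod p) * (w l p i * w l p j) = z' := by
      have := div_mul_cancel₀ (z' - z) hne
      rw [a2]; linear_combination this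
    rwa [e1, e2] at this
  refine ⟨all _ _, ?_⟩
  have := (all (x' - 1) (z' - w l p i * w l p j)).tail (hR _ _)
  simpa using this

lemma frozen [Fact p.Prime] (hp : 2 * l < p) (hp3 : 3 < p)
    {f g : ZMod 3 × Fin l × ZMod p → Fin l} (hf : ∃ σ : Equiv.Perm (Fin l), ∀ u, f u = σ u.2.1)
    (h : KempeStep (gr l p) f g) : ∃ σ : Equiv.Perm (Fin l), ∀ u, g u = σ u.2.1 := by
  obtain ⟨σ, hσ⟩ := hf
  obtain ⟨a, b, v, hab, hv, h⟩ := h
  refine ⟨σ.trans (Equiv.swap a b), fun u => ?_⟩
  rw [Equiv.trans_apply, ← hσ]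
  by_cases hc : SameChain (gr l p) f a b v u
  · exact (h u).1 hc
  rw [(h u).2 hc]
  by_cases hu : f u = a ∨ f u = b
  · exfalso
    apply hc
    have key : ∀ i j : Fin l, i ≠ j → (σ i = a ∨ σ i = b) → (σ j = a ∨ σ j = b) → ∀ x z x' z',
        SameChain (gr l p) f a b (x, i, z) (x', i, z') ∧
        SameChain (gr l p) f a b (x, i, z) (x', j, z') := by
      intro i j hij hi hj x z x' z'
      refine conn hp hp3 hij _ (fun x z => ⟨Or.inl ⟨rfl, hij, rfl⟩, ?_, ?_⟩)
        (fun x z => ⟨Or.inl ⟨rfl, hij.symm, by simp [mul_comm]⟩, ?_, ?_⟩) x z x' z' <;>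
        rw [hσ] <;> assumption
    obtain ⟨x, i, z⟩ := v
    obtain ⟨x', i', z'⟩ := u
    rw [hσ] at hu hv
    simp only at hu hv
    by_cases e : i = i'
    · subst e
      rcases hv with hv | hv
      · exact (key i (σ.symm b) (by intro e; apply hab; rw [← hv, e]; simp) (Or.inl hv)
          (Or.inr (by simp)) x z x' z').1
      · exact (key i (σ.symm a) (by intro e; apply hab; rw [← hv, e]; simp) (Or.inr hv)
          (Or.inl (by simp)) x z x' z').1
    · exact (key i i' e hv hu x z x' z').2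
  · push Not at hu
    rw [Equiv.swap_apply_of_ne_of_ne hu.1 hu.2]

end

theorem result (c : ℕ) : ∃ (V : Type) (_ : Finite V) (G : SimpleGraph V),
    IsEmpty (SimpleGraph.cycleGraph 4 ↪g G) ∧ G.Colorable 3 ∧
    ∃ f g : G.Coloring (Fin (3 + c)), ¬ KempeEquiv G f g := by
  obtain ⟨p, hp, hpp⟩ := Nat.exists_infinite_primes (2 * (3 + c) + 1)
  haveI : Fact p.Prime := ⟨hpp⟩
  have col3 : ∀ {u v : ZMod 3 × Fin (3 + c) × ZMod p}, (gr (3 + c) p).Adj u v → u.1 ≠ v.1 := by
    intro u v h e
    have h10 : (1 : ZMod 3) ≠ 0 := by decide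
    rcases h with h | h
    · exact h10 (by linear_combination -h.1 - e)
    · exact h10 (by linear_combination -h.1 + e)
  refine ⟨ZMod 3 × Fin (3 + c) × ZMod p, inferInstance, gr (3 + c) p, ⟨fun e => ?_⟩,
    ⟨SimpleGraph.Coloring.mk (fun u => (u.1 : ZMod 3)) col3⟩,
    SimpleGraph.Coloring.mk (fun u => u.2.1) ?_,
    SimpleGraph.Coloring.mk (fun u => Fin.castAdd c (u.1 : ZMod 3)) ?_, ?_⟩
  · have := noC4 (l := 3 + c) (p := p) (by omega) (e.map_adj_iff.2 (show (SimpleGraph.cycleGraph 4).Adj 0 1 by decide))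
      (e.map_adj_iff.2 (show (SimpleGraph.cycleGraph 4).Adj 1 2 by decide))
      (e.map_adj_iff.2 (show (SimpleGraph.cycleGraph 4).Adj 2 3 by decide))
      (e.map_adj_iff.2 (show (SimpleGraph.cycleGraph 4).Adj 3 0 by decide))
    rcases this with h | h
    · exact absurd (e.injective h) (by decide)
    · exact absurd (e.injective h) (by decide)
  · intro u v h
    rcases h with h | h
    · exact h.2.1
    · exact h.2.1.symm
  · intro u v h e
    exact col3 h (Fin.castAdd_injective _ _ e)
  · intro h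
    have key : ∀ g, KempeEquiv (gr (3 + c) p) (fun u => u.2.1) g →
        ∃ σ : Equiv.Perm (Fin (3 + c)), ∀ u, g u = σ u.2.1 := by
      intro g hg
      induction hg with
      | refl => exact ⟨1, fun _ => rfl⟩
      | tail _ h ih => exact frozen (by omega) (by omega) ih h
    obtain ⟨σ, hσ⟩ := key _ h
    have h0 := hσ (0, ⟨0, by omega⟩, 0)
    have h1 := hσ (1, ⟨0, by omega⟩, 0)
    have := Fin.castAdd_injective _ _ (h0.trans h1.symm)
    exact absurd this (show ¬ (0 : ZMod 3) = 1 by decide)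

end Pool.Agent.Results.MP_de689f_co.Q1No
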